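import Pool.Agent.W423.NX.Defs
import Pool.Agent.W67.NC.Lim

set_option autoImplicit false

/-! Project NX: the limit for the extended system with multiplicities. -/

namespace Pool.Agent.W310.NX

open MvPolynomial Pool.Agent.H628R4.TZ Pool.Agent.H628R4.TP Pool.Agent.W425.SM
open MeasureTheory Set Filter Topology
open Pool.Agent.W423.MV
open Pool.Agent.W655.SM (cone_li pos_meas)
open Pool.Agent.W349.SG (cone_liQ)
open Pool.Agent.W423.MG Pool.Agent.W423.NC Pool.Agent.W423.NX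
open Pool.Agent.W67.NC (zero_mem_Jh succ_mem_Jh Jh_mono card_Jh mH NZ lmw_0 lmw_tc lmw_wc)

variable {r N P : ℕ}

/-! ### the forms -/

lemma Ax_zero (g : Fin r → Fin (P+1)) (v : Fin r → Fin N → ℕ) (m : Fin (P+1) → ℕ) (l : Fin (r+1)) :
    Ax g v m l 0 = -1 := rfl

lemma Ax_tc0 (g : Fin r → Fin (P+1)) (v : Fin r → Fin N → ℕ) (m : Fin (P+1) → ℕ) (k : Fin (P+1)) :
    Ax g v m 0 (tc k) = (m k : ℤ) := by
  unfold Ax tc vx
  rw [Fin.cons_succ, Fin.cons_zero, Fin.append_left]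

lemma Ax_wc0 (g : Fin r → Fin (P+1)) (v : Fin r → Fin N → ℕ) (m : Fin (P+1) → ℕ) (i : Fin N) :
    Ax g v m 0 (wco i) = 0 := by
  unfold Ax wco vx
  rw [Fin.cons_succ, Fin.cons_zero, Fin.append_right]
  simp

lemma Ax_tcs (g : Fin r → Fin (P+1)) (v : Fin r → Fin N → ℕ) (m : Fin (P+1) → ℕ)
    (hm : ∀ k, 1 ≤ m k) (j : Fin r) (k : Fin (P+1)) :
    Ax g v m j.succ (tc k) = (m k : ℤ) - if g j = k then 1 else 0 := by
  unfold Ax tc vx
  rw [Fin.cons_succ, Fin.cons_succ, Fin.append_left]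
  have := hm k
  split_ifs
  · push_cast [Nat.cast_sub this]
    ring
  · simp

lemma Ax_wcs (g : Fin r → Fin (P+1)) (v : Fin r → Fin N → ℕ) (m : Fin (P+1) → ℕ) (j : Fin r) (i : Fin N) :
    Ax g v m j.succ (wco i) = (v j i : ℤ) := by
  unfold Ax wco vx
  rw [Fin.cons_succ, Fin.cons_succ, Fin.append_right]

lemma yA_0 (g : Fin r → Fin (P+1)) (v : Fin r → Fin N → ℕ) (m : Fin (P+1) → ℕ) (x : Fin (P+1+N+1) → ℝ) :
    yA (Ax g v m) x 0 = ∑ k, (m k : ℝ) * x (tc k) - x 0 := by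
  unfold yA
  rw [sum_coords]
  simp only [Ax_zero, Ax_tc0, Ax_wc0]
  push_cast
  simp
  ring

lemma yA_s (g : Fin r → Fin (P+1)) (v : Fin r → Fin N → ℕ) (m : Fin (P+1) → ℕ)
    (hm : ∀ k, 1 ≤ m k) (x : Fin (P+1+N+1) → ℝ)
    (j : Fin r) : yA (Ax g v m) x j.succ = we v x j - x (tc (g j)) + yA (Ax g v m) x 0 := by
  rw [yA_0]
  unfold yA we
  rw [sum_coords]
  simp only [Ax_zero, Ax_tcs g v m hm, Ax_wcs]
  have h1 : ∑ k : Fin (P+1), ((((m k : ℤ) - if g j = k then (1:ℤ) else 0) : ℤ) : ℝ) * x (tc k) =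
      ∑ k : Fin (P+1), (m k : ℝ) * x (tc k) - x (tc (g j)) := by
    have h2 : ∀ k : Fin (P+1), ((((m k : ℤ) - if g j = k then (1:ℤ) else 0) : ℤ) : ℝ) * x (tc k) =
        (m k : ℝ) * x (tc k) - if g j = k then x (tc k) else 0 := by
      intro k
      split_ifs
      · push_cast
        ring
      · push_cast
        ring
    simp only [h2]
    rw [Finset.sum_sub_distrib, Finset.sum_ite_eq]
    simp
  rw [h1]
  push_cast
  ring

/-- `ρ̂` -/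
noncomputable def rhoX (g : Fin r → Fin (P+1)) (v : Fin r → Fin N → ℕ) (m : Fin (P+1) → ℕ) (ρ : Fin N → ℕ) :
    Fin (P+1+N+1) → ℤ :=
  Fin.cons (∑ k, (m k : ℤ) * (ordG g v k ρ : ℤ)) (Fin.append
    (fun k : Fin (P+1) => (ordG g v k ρ : ℤ)) (fun i => (ρ i : ℤ)))

/-- real version -/
noncomputable def rhoXR (g : Fin r → Fin (P+1)) (v : Fin r → Fin N → ℕ) (m : Fin (P+1) → ℕ) (ρ : Fin N → ℕ) :
    Fin (P+1+N+1) → ℝ := fun l => (rhoX g v m ρ l : ℝ)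

lemma rhoX_zero (g : Fin r → Fin (P+1)) (v : Fin r → Fin N → ℕ) (m : Fin (P+1) → ℕ) (ρ : Fin N → ℕ) :
    rhoX g v m ρ 0 = ∑ k, (m k : ℤ) * (ordG g v k ρ : ℤ) := rfl

lemma rhoX_tc (g : Fin r → Fin (P+1)) (v : Fin r → Fin N → ℕ) (m : Fin (P+1) → ℕ) (ρ : Fin N → ℕ) (k : Fin (P+1)) :
    rhoX g v m ρ (tc k) = (ordG g v k ρ : ℤ) := by
  unfold rhoX tc
  rw [Fin.cons_succ, Fin.append_left]

lemma rhoX_wc (g : Fin r → Fin (P+1)) (v : Fin r → Fin N → ℕ) (m : Fin (P+1) → ℕ) (ρ : Fin N → ℕ) (i : Fin N) :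
    rhoX g v m ρ (wco i) = (ρ i : ℤ) := by
  unfold rhoX wco
  rw [Fin.cons_succ, Fin.append_right]

lemma we_rhoX (g : Fin r → Fin (P+1)) (v : Fin r → Fin N → ℕ) (m : Fin (P+1) → ℕ) (ρ : Fin N → ℕ) (j : Fin r) :
    we v (rhoXR g v m ρ) j = ((∑ l, ρ l * v j l : ℕ) : ℝ) := by
  unfold we rhoXR
  simp only [rhoX_wc]
  push_cast
  exact Finset.sum_congr rfl fun i _ => mul_comm _ _

lemma yA_rho0 (g : Fin r → Fin (P+1)) (v : Fin r → Fin N → ℕ) (m : Fin (P+1) → ℕ) (ρ : Fin N → ℕ) :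
    yA (Ax g v m) (rhoXR g v m ρ) 0 = 0 := by
  rw [yA_0]
  unfold rhoXR
  simp only [rhoX_tc, rhoX_zero]
  push_cast
  ring

lemma yA_rhos (g : Fin r → Fin (P+1)) (v : Fin r → Fin N → ℕ) (m : Fin (P+1) → ℕ)
    (hm : ∀ k, 1 ≤ m k) (ρ : Fin N → ℕ) (j : Fin r) :
    yA (Ax g v m) (rhoXR g v m ρ) j.succ =
      ((∑ l, ρ l * v j l : ℕ) : ℝ) - (ordG g v (g j) ρ : ℝ) := by
  rw [yA_s g v m hm, yA_rho0, we_rhoX, add_zero]
  unfold rhoXR
  rw [rhoX_tc]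
  simp

lemma mem_mX (g : Fin r → Fin (P+1)) (v : Fin r → Fin N → ℕ) (m : Fin (P+1) → ℕ)
    (hm : ∀ k, 1 ≤ m k) (σ : Finset (Fin N → ℕ))
    (l : Fin (r+1)) : l ∈ mH g v σ ↔ ∀ ρ ∈ σ, yA (Ax g v m) (rhoXR g v m ρ) l = 0 := by
  rcases Fin.eq_zero_or_eq_succ l with h0 | ⟨j, hj⟩
  · subst h0
    exact iff_of_true (zero_mem_Jh _) fun ρ _ => yA_rho0 g v m ρ
  · subst hj
    unfold mH
    rw [succ_mem_Jh, mem_minSetG]
    refine forall₂_congr fun ρ _ => ?_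
    rw [yA_rhos g v m hm, sub_eq_zero]
    exact_mod_cast Iff.rfl

lemma clX_sub (g : Fin r → Fin (P+1)) (v : Fin r → Fin N → ℕ) (m : Fin (P+1) → ℕ)
    (hm : ∀ k, 1 ≤ m k) (J : Finset (Fin (r+1)))
    (σ : Finset (Fin N → ℕ)) (hJ : J ⊆ mH g v σ) : clA (Ax g v m) J ⊆ mH g v σ := by
  intro l hl
  obtain ⟨c, hc⟩ := (mem_clA _ _ _).1 hl
  rw [mem_mX g v m hm]
  intro ρ hρ
  exact combA_zero _ hc _ fun j hj => (mem_mX g v m hm σ j).1 (hJ hj) ρ hρ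

lemma mX_sub_cl (g : Fin r → Fin (P+1)) (v : Fin r → Fin N → ℕ) (m : Fin (P+1) → ℕ)
    (hm : ∀ k, 1 ≤ m k) (R : SmoothFan N)
    (J : Finset (Fin (r+1))) (hI : IndA (Ax g v m) J)
    (σ : Finset (Fin N → ℕ)) (hσ : σ ∈ R.cones) (hJ : J ⊆ mH g v σ)
    (hcard : σ.card + J.card = P + 1 + N + 1) : mH g v σ ⊆ clA (Ax g v m) J := by
  classical
  intro l hl
  rw [mem_clA]
  set qh : σ → Fin (P+1+N+1) → ℚ := fun ρ i => (rhoX g v m ρ i : ℚ) with hqh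
  set U : Submodule ℚ (Fin (P+1+N+1) → ℚ) := Submodule.span ℚ (Set.range qh) with hU
  have hqli : LinearIndependent ℚ qh := by
    refine LinearIndependent.of_comp
      (LinearMap.funLeft ℚ ℚ (wco : Fin N → Fin (P+1+N+1))) ?_
    have h1 : (LinearMap.funLeft ℚ ℚ (wco : Fin N → Fin (P+1+N+1))) ∘ qh =
        (fun ρ : σ => (fun l => ((ρ : Fin N → ℕ) l : ℚ) : Fin N → ℚ)) := by
      funext ρ l
      show ((rhoX g v m ρ (wco l) : ℤ) : ℚ) = _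
      rw [rhoX_wc]
      simp
    rw [h1]
    exact cone_liQ R σ hσ
  have hUr : Module.finrank ℚ U = σ.card := by
    rw [hU, finrank_span_eq_card hqli, Fintype.card_coe]
  have hWr : Module.finrank ℚ U.dualAnnihilator = J.card := by
    have h := Subspace.finrank_add_finrank_dualAnnihilator_eq U
    rw [hUr, Module.finrank_fin_fun] at h
    omega
  have hmem : ∀ j ∈ mH g v σ, yQ (Ax g v m) j ∈ U.dualAnnihilator := by
    intro j hj
    rw [Submodule.mem_dualAnnihilator]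
    intro w hw
    have hle : U ≤ LinearMap.ker (yQ (Ax g v m) j) := by
      rw [hU, Submodule.span_le]
      rintro _ ⟨ρ, rfl⟩
      show yQ (Ax g v m) j (qh ρ) = 0
      have h1 := (mem_mX g v m hm σ j).1 hj ρ ρ.2
      have h2 : ((yQ (Ax g v m) j (qh ρ) : ℚ) : ℝ) = 0 := by
        rw [yQ_apply, hqh]
        unfold yA rhoXR at h1
        push_cast
        exact h1
      exact_mod_cast h2
    exact hle hw
  have hli : LinearIndependent ℚ (fun j : J => yQ (Ax g v m) (j : Fin (r+1))) := by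
    rw [Fintype.linearIndependent_iff]
    intro c hc
    have h1 := (Fintype.linearIndependent_iff.1 hI) c
    refine h1 ?_
    funext i
    have h := congrArg (fun F : Module.Dual ℚ (Fin (P+1+N+1) → ℚ) => F (Pi.single i 1)) hc
    simp only [LinearMap.sum_apply, LinearMap.smul_apply, yQ_apply, LinearMap.zero_apply,
      smul_eq_mul] at h
    simp only [Finset.sum_apply, Pi.smul_apply, smul_eq_mul, Pi.zero_apply]
    rw [← h]
    refine Finset.sum_congr rfl fun j _ => ?_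
    congr 1
    rw [Finset.sum_eq_single i]
    · simp
    · intro b _ hb
      rw [Pi.single_eq_of_ne hb, mul_zero]
    · intro h'; exact absurd (Finset.mem_univ _) h'
  let b : J → U.dualAnnihilator := fun j => ⟨yQ (Ax g v m) (j : Fin (r+1)), hmem j (hJ j.2)⟩
  have hbli : LinearIndependent ℚ b := by
    refine LinearIndependent.of_comp (Submodule.subtype _) ?_
    exact hli
  have hspan := hbli.span_eq_top_of_card_eq_finrank' (by rw [hWr, Fintype.card_coe])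
  have hlm : (⟨yQ (Ax g v m) l, hmem l hl⟩ : U.dualAnnihilator) ∈
      Submodule.span ℚ (Set.range b) := by
    rw [hspan]; trivial
  obtain ⟨c, hc⟩ := (Submodule.mem_span_range_iff_exists_fun ℚ).1 hlm
  have hc' : ∑ j, c j • yQ (Ax g v m) (j : Fin (r+1)) = yQ (Ax g v m) l := by
    have := congrArg (Submodule.subtype _) hc
    rw [map_sum] at this
    exact this
  refine ⟨fun j => if h : j ∈ J then c ⟨j, h⟩ else 0, fun j hj => by simp [hj], fun i => ?_⟩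
  have h3 := LinearMap.congr_fun hc' (fun k => if k = i then 1 else 0)
  simp only [LinearMap.sum_apply, LinearMap.smul_apply, yQ_apply, mul_ite, mul_one, mul_zero,
    Finset.sum_ite_eq', Finset.mem_univ, if_true, smul_eq_mul] at h3
  rw [← h3]
  exact Pool.Agent.W327.SG.sum_ext c (fun j => (Ax g v m j i : ℚ))

/-! ### The region of a cone -/

section reg

variable (g : Fin r → Fin (P+1)) (v : Fin r → Fin N → ℕ) (m : Fin (P+1) → ℕ)
  {J : Finset (Fin (r+1))} {d : ℕ}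
  (Θ : ((J → ℝ) × (Fin d → ℝ)) ≃ₗ[ℝ] (Fin (P+1+N+1) → ℝ))

/-- the region of the cone `σ` -/
noncomputable def rgX (σ : Finset (Fin N → ℕ)) : Set (Fin d → ℝ) :=
  regA Θ (fun ρ : σ => rhoX g v m (ρ : Fin N → ℕ))

lemma rgX_iff (σ : Finset (Fin N → ℕ)) (a : Fin d → ℝ) :
    a ∈ rgX g v m Θ σ ↔ ∃ c : σ → ℝ, (∀ ρ, 0 < c ρ) ∧
      Θ (0, a) = ∑ ρ : σ, c ρ • rhoXR g v m (ρ : Fin N → ℕ) := Iff.rfl

/-- coordinates of the ray -/
noncomputable def arX (ρ : Fin N → ℕ) : Fin d → ℝ := (Θ.symm (rhoXR g v m ρ)).2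

lemma arX_spec (hm : ∀ k, 1 ≤ m k) {κ : ℝ} (hA : AdaptA (Ax g v m) J d Θ κ)
    (σ : Finset (Fin N → ℕ)) (hJ : J ⊆ mH g v σ) (ρ : Fin N → ℕ) (hρ : ρ ∈ σ) :
    Θ (0, arX g v m Θ ρ) = rhoXR g v m ρ := by
  have h1 : Θ.symm (rhoXR g v m ρ) = (0, arX g v m Θ ρ) := by
    refine Prod.ext ?_ rfl
    funext j
    have h2 := hA.y (Θ.symm (rhoXR g v m ρ)).1 (Θ.symm (rhoXR g v m ρ)).2 j
    have h3 : Θ ((Θ.symm (rhoXR g v m ρ)).1, (Θ.symm (rhoXR g v m ρ)).2) = rhoXR g v m ρ :=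
      Θ.apply_symm_apply _
    rw [h3, (mem_mX g v m hm σ j).1 (hJ j.2) ρ hρ] at h2
    rw [← h2]
    simp
  rw [← h1, Θ.apply_symm_apply]

/-- the linear map of a cone -/
noncomputable def cLX (σ : Finset (Fin N → ℕ)) : (σ → ℝ) →ₗ[ℝ] (Fin d → ℝ) :=
  Fintype.linearCombination ℝ (fun ρ : σ => arX g v m Θ ρ)

lemma cLX_apply (σ : Finset (Fin N → ℕ)) (c : σ → ℝ) :
    cLX g v m Θ σ c = ∑ ρ : σ, c ρ • arX g v m Θ ρ := by
  rw [cLX, Fintype.linearCombination_apply]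

lemma cLX_Θ (hm : ∀ k, 1 ≤ m k) {κ : ℝ} (hA : AdaptA (Ax g v m) J d Θ κ)
    (σ : Finset (Fin N → ℕ)) (hJ : J ⊆ mH g v σ) (c : σ → ℝ) :
    Θ (0, cLX g v m Θ σ c) = ∑ ρ : σ, c ρ • rhoXR g v m ρ := by
  have h1 : ((0 : J → ℝ), cLX g v m Θ σ c) =
      ∑ ρ : σ, c ρ • ((0 : J → ℝ), arX g v m Θ (ρ : Fin N → ℕ)) := by
    refine Prod.ext ?_ ?_
    · simp [Prod.fst_sum]
    · rw [Prod.snd_sum, cLX_apply]
      exact Finset.sum_congr rfl fun ρ _ => rfl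
  rw [h1, map_sum]
  refine Finset.sum_congr rfl fun ρ _ => ?_
  rw [map_smul, arX_spec g v m Θ hm hA σ hJ ρ ρ.2]

lemma arX_li (hm : ∀ k, 1 ≤ m k) (R : SmoothFan N) {κ : ℝ} (hA : AdaptA (Ax g v m) J d Θ κ)
    (σ : Finset (Fin N → ℕ)) (hσ : σ ∈ R.cones) (hJ : J ⊆ mH g v σ) :
    LinearIndependent ℝ (fun ρ : σ => arX g v m Θ (ρ : Fin N → ℕ)) := by
  let T : (Fin d → ℝ) →ₗ[ℝ] (Fin N → ℝ) :=
    (LinearMap.funLeft ℝ ℝ (wco : Fin N → Fin (P+1+N+1))) ∘ₗ Θ.toLinearMap ∘ₗ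
      (LinearMap.inr ℝ (J → ℝ) (Fin d → ℝ))
  refine LinearIndependent.of_comp T ?_
  have h1 : (T ∘ fun ρ : σ => arX g v m Θ (ρ : Fin N → ℕ)) =
      (fun ρ : σ => (fun l => ((ρ : Fin N → ℕ) l : ℝ) : Fin N → ℝ)) := by
    funext ρ l
    show Θ (0, arX g v m Θ (ρ : Fin N → ℕ)) (wco l) = _
    rw [arX_spec g v m Θ hm hA σ hJ ρ ρ.2]
    unfold rhoXR
    rw [rhoX_wc]
    simp
  rw [h1]
  exact cone_li R σ hσ

lemma cardX_le (hm : ∀ k, 1 ≤ m k) (R : SmoothFan N) {κ : ℝ} (hA : AdaptA (Ax g v m) J d Θ κ)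
    (σ : Finset (Fin N → ℕ)) (hσ : σ ∈ R.cones) (hJ : J ⊆ mH g v σ) : σ.card ≤ d := by
  have h := (arX_li g v m Θ hm R hA σ hσ hJ).fintype_card_le_finrank
  simpa using h

lemma cLX_inj (hm : ∀ k, 1 ≤ m k) (R : SmoothFan N) {κ : ℝ} (hA : AdaptA (Ax g v m) J d Θ κ)
    (σ : Finset (Fin N → ℕ)) (hσ : σ ∈ R.cones) (hJ : J ⊆ mH g v σ) :
    Function.Injective (cLX g v m Θ σ) :=
  (arX_li g v m Θ hm R hA σ hσ hJ).fintypeLinearCombination_injective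

lemma rgX_eq (hm : ∀ k, 1 ≤ m k) {κ : ℝ} (hA : AdaptA (Ax g v m) J d Θ κ)
    (σ : Finset (Fin N → ℕ)) (hJ : J ⊆ mH g v σ) :
    rgX g v m Θ σ = cLX g v m Θ σ '' {c | ∀ ρ, 0 < c ρ} := by
  classical
  ext a
  constructor
  · rintro ⟨c, hc, h⟩
    refine ⟨c, hc, ?_⟩
    have h1 : Θ (0, a) = Θ (0, cLX g v m Θ σ c) := by
      rw [cLX_Θ g v m Θ hm hA σ hJ, h]
      rfl
    have h2 := Θ.injective h1
    exact (congrArg Prod.snd h2).symm
  · rintro ⟨c, hc, rfl⟩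
    exact ⟨c, hc, cLX_Θ g v m Θ hm hA σ hJ c⟩

lemma rgX_meas (hm : ∀ k, 1 ≤ m k) (R : SmoothFan N) {κ : ℝ} (hA : AdaptA (Ax g v m) J d Θ κ)
    (σ : Finset (Fin N → ℕ)) (hσ : σ ∈ R.cones) (hJ : J ⊆ mH g v σ) :
    MeasurableSet (rgX g v m Θ σ) := by
  rw [rgX_eq g v m Θ hm hA σ hJ]
  exact (pos_meas σ).image_of_continuousOn_injOn
    (LinearMap.continuous_of_finiteDimensional _).continuousOn (cLX_inj g v m Θ hm R hA σ hσ hJ).injOn

lemma rgX_null (hm : ∀ k, 1 ≤ m k) {κ : ℝ} (hA : AdaptA (Ax g v m) J d Θ κ)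
    (σ : Finset (Fin N → ℕ)) (hJ : J ⊆ mH g v σ) (hd : σ.card < d) :
    volume (rgX g v m Θ σ) = 0 := by
  rw [rgX_eq g v m Θ hm hA σ hJ]
  have h1 : LinearMap.range (cLX g v m Θ σ) ≠ ⊤ := by
    intro h
    have h2 := LinearMap.finrank_range_le (cLX g v m Θ σ)
    rw [h, finrank_top] at h2
    simp at h2
    omega
  refine measure_mono_null ?_ (Measure.addHaar_submodule volume _ h1)
  rintro _ ⟨c, _, rfl⟩
  exact ⟨c, rfl⟩

lemma rgX_coord (σ : Finset (Fin N → ℕ))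
    (a : Fin d → ℝ) (ha : a ∈ rgX g v m Θ σ) : ∃ c : (Fin N → ℕ) → ℝ, (∀ ρ ∈ σ, 0 < c ρ) ∧
      Θ (0, a) = ∑ ρ ∈ σ, c ρ • rhoXR g v m ρ := by
  classical
  obtain ⟨c, hc, h⟩ := (rgX_iff g v m Θ σ a).1 ha
  refine ⟨fun ρ => if h : ρ ∈ σ then c ⟨ρ, h⟩ else 0, fun ρ hρ => ?_, ?_⟩
  · simp only [hρ, dif_pos]
    exact hc _
  · rw [h, ← Finset.sum_coe_sort σ]
    refine Finset.sum_congr rfl fun ρ _ => ?_
    simp

lemma rgX_wc (σ : Finset (Fin N → ℕ)) (c : (Fin N → ℕ) → ℝ) (x : Fin (P+1+N+1) → ℝ)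
    (h : x = ∑ ρ ∈ σ, c ρ • rhoXR g v m ρ) (l : Fin N) :
    x (wco l) = ∑ ρ ∈ σ, c ρ * (ρ l : ℝ) := by
  rw [h, Finset.sum_apply]
  refine Finset.sum_congr rfl fun ρ _ => ?_
  rw [Pi.smul_apply, smul_eq_mul]
  unfold rhoXR
  rw [rhoX_wc]
  simp

lemma rgX_tc (σ : Finset (Fin N → ℕ)) (c : (Fin N → ℕ) → ℝ) (x : Fin (P+1+N+1) → ℝ)
    (h : x = ∑ ρ ∈ σ, c ρ • rhoXR g v m ρ) (k : Fin (P+1)) :
    x (tc k) = ∑ ρ ∈ σ, c ρ * (ordG g v k ρ : ℝ) := by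
  rw [h, Finset.sum_apply]
  refine Finset.sum_congr rfl fun ρ _ => ?_
  rw [Pi.smul_apply, smul_eq_mul]
  unfold rhoXR
  rw [rhoX_tc]
  simp

lemma rgX_0 (σ : Finset (Fin N → ℕ)) (c : (Fin N → ℕ) → ℝ) (x : Fin (P+1+N+1) → ℝ)
    (h : x = ∑ ρ ∈ σ, c ρ • rhoXR g v m ρ) :
    x 0 = ∑ ρ ∈ σ, c ρ * ∑ k, (m k : ℝ) * (ordG g v k ρ : ℝ) := by
  rw [h, Finset.sum_apply]
  refine Finset.sum_congr rfl fun ρ _ => ?_
  rw [Pi.smul_apply, smul_eq_mul]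
  unfold rhoXR
  rw [rhoX_zero]
  push_cast
  rfl

lemma rgX_disj (R : SmoothFan N) (σ σ' : Finset (Fin N → ℕ))
    (hσ : σ ∈ R.cones) (hσ' : σ' ∈ R.cones) (a : Fin d → ℝ) (ha : a ∈ rgX g v m Θ σ)
    (ha' : a ∈ rgX g v m Θ σ') : σ = σ' := by
  obtain ⟨c, hc, h⟩ := rgX_coord g v m Θ σ a ha
  obtain ⟨c', hc', h'⟩ := rgX_coord g v m Θ σ' a ha'
  obtain ⟨τ, _, hτ⟩ := R.partition (fun l => Θ (0, a) (wco l)) (fun l => by
    show 0 ≤ Θ (0, a) (wco l)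
    rw [rgX_wc g v m σ c _ h]
    exact Finset.sum_nonneg fun ρ hρ => mul_nonneg (hc ρ hρ).le (Nat.cast_nonneg _))
  rw [hτ σ ⟨hσ, c, hc, rgX_wc g v m σ c _ h⟩, hτ σ' ⟨hσ', c', hc', rgX_wc g v m σ' c' _ h'⟩]

end reg

/-- the cones which contribute -/
def PCX (g : Fin r → Fin (P+1)) (v : Fin r → Fin N → ℕ) (m : Fin (P+1) → ℕ) (αx : ℝ) (J : Finset (Fin (r+1)))
    (σ : Finset (Fin N → ℕ)) : Prop :=
  mH g v σ = clA (Ax g v m) J ∧ NZ g v σ ∧ Inc αx σ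

lemma PCX.sub {g : Fin r → Fin (P+1)} {v : Fin r → Fin N → ℕ} {m : Fin (P+1) → ℕ} {αx : ℝ}
    {J : Finset (Fin (r+1))} {σ : Finset (Fin N → ℕ)} (h : PCX g v m αx J σ) : J ⊆ mH g v σ := by
  rw [h.1]; exact sub_clA _ J

lemma bx_zero (K α0 αx : ℝ) : bx (N := N) (P := P) K α0 αx 0 = -K := rfl

lemma bx_tc (K α0 αx : ℝ) (k : Fin (P+1)) : bx (N := N) K α0 αx (tc k) = α0 := by
  unfold bx ax tc
  rw [Fin.cons_succ, Fin.append_left]

lemma bx_wc (K α0 αx : ℝ) (i : Fin N) : bx (P := P) K α0 αx (wco i) = αx := by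
  unfold bx ax wco
  rw [Fin.cons_succ, Fin.append_right]

section cond

variable (g : Fin r → Fin (P+1)) (v : Fin r → Fin N → ℕ) (m : Fin (P+1) → ℕ)
  {J : Finset (Fin (r+1))} {d : ℕ}
  (Θ : ((J → ℝ) × (Fin d → ℝ)) ≃ₗ[ℝ] (Fin (P+1+N+1) → ℝ))

lemma condX_of_rg (hm : ∀ k, 1 ≤ m k) (K α0 αx : ℝ) (hα : 0 < α0)
    (σ : Finset (Fin N → ℕ)) (hP : PCX g v m αx J σ) (a : Fin d → ℝ)
    (ha : a ∈ rgX g v m Θ σ) : CondA (Ax g v m) (bx K α0 αx) J (Θ (0, a)) := by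
  obtain ⟨c, hc, h⟩ := rgX_coord g v m Θ σ a ha
  obtain ⟨hJ, ⟨ρ0, hρ0, k0, hk0⟩, hInc⟩ := hP
  set x := Θ (0, a) with hx
  have hx0 := rgX_0 g v m σ c x h
  have hxt := rgX_tc g v m σ c x h
  have hy0 : yA (Ax g v m) x 0 = 0 := by
    rw [yA_0, hx0]
    simp only [hxt, Finset.mul_sum]
    rw [Finset.sum_comm, sub_eq_zero]
    exact Finset.sum_congr rfl fun ρ _ => Finset.sum_congr rfl fun k _ => by ring
  refine ⟨fun i => ?_, fun l hl => ?_⟩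
  · refine coords_cases (p := fun i => 0 < x i ∨ x i = 0 ∧ 0 < bx K α0 αx i) ?_ ?_ ?_ i
    · left
      rw [hx0]
      refine Finset.sum_pos' (fun ρ hρ => mul_nonneg (hc ρ hρ).le
        (Finset.sum_nonneg fun k _ => mul_nonneg (Nat.cast_nonneg _) (Nat.cast_nonneg _)))
        ⟨ρ0, hρ0, mul_pos (hc ρ0 hρ0) ?_⟩
      exact Finset.sum_pos' (fun k _ => mul_nonneg (Nat.cast_nonneg _) (Nat.cast_nonneg _))
        ⟨k0, Finset.mem_univ _, mul_pos (by exact_mod_cast hm k0)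
          (by exact_mod_cast Nat.pos_of_ne_zero hk0)⟩
    · intro k
      have h3 : 0 ≤ x (tc k) := by
        rw [hxt]
        exact Finset.sum_nonneg fun ρ hρ => mul_nonneg (hc ρ hρ).le (Nat.cast_nonneg _)
      rcases h3.lt_or_eq with h4 | h4
      · exact Or.inl h4
      · exact Or.inr ⟨h4.symm, by rw [bx_tc]; exact hα⟩
    · intro i
      have h3 : 0 ≤ x (wco i) := by
        rw [rgX_wc g v m σ c x h]
        exact Finset.sum_nonneg fun ρ hρ => mul_nonneg (hc ρ hρ).le (Nat.cast_nonneg _)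
      rcases hInc with h5 | h5
      · rcases h3.lt_or_eq with h4 | h4
        · exact Or.inl h4
        · exact Or.inr ⟨h4.symm, by rw [bx_wc]; exact h5⟩
      · left
        obtain ⟨ρ1, hρ1, h6⟩ := h5 i
        rw [rgX_wc g v m σ c x h]
        exact Finset.sum_pos' (fun ρ hρ => mul_nonneg (hc ρ hρ).le (Nat.cast_nonneg _))
          ⟨ρ1, hρ1, mul_pos (hc ρ1 hρ1) (by exact_mod_cast Nat.pos_of_ne_zero h6)⟩
  · have hl' : l ∉ mH g v σ := by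
      rw [hJ, mem_clA]
      rintro ⟨c, hc⟩
      exact hl c hc
    rcases Fin.eq_zero_or_eq_succ l with h0 | ⟨j, hj⟩
    · subst h0
      exact absurd (zero_mem_Jh _) hl'
    · subst hj
      rw [yA_s g v m hm, hy0, add_zero, we_sum v σ c x (rgX_wc g v m σ c x h), hxt, ← Finset.sum_sub_distrib]
      unfold mH at hl'
      rw [succ_mem_Jh, mem_minSetG] at hl'
      push Not at hl'
      obtain ⟨ρ1, hρ1, h3⟩ := hl'
      refine Finset.sum_pos' (fun ρ hρ => ?_) ⟨ρ1, hρ1, ?_⟩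
      · rw [← mul_sub]
        refine mul_nonneg (hc ρ hρ).le (sub_nonneg.2 ?_)
        exact_mod_cast ordG_le g v ρ j
      · rw [← mul_sub]
        refine mul_pos (hc ρ1 hρ1) (sub_pos.2 ?_)
        exact_mod_cast lt_of_le_of_ne (ordG_le g v ρ1 j) (Ne.symm h3)

lemma rgX_of_cond (hm : ∀ k, 1 ≤ m k) (R : SmoothFan N) (hPr : PrincipalG g v R) (h0J : (0 : Fin (r+1)) ∈ J)
    (hJ : ∀ k, ∃ j, j.succ ∈ J ∧ g j = k) {κ : ℝ} (hA : AdaptA (Ax g v m) J d Θ κ)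
    (K α0 αx : ℝ) (hK : 0 < K) (hαx : αx ≠ 0)
    (a : Fin d → ℝ) (h : CondA (Ax g v m) (bx K α0 αx) J (Θ (0, a))) :
    ∃ σ ∈ R.cones, PCX g v m αx J σ ∧ a ∈ rgX g v m Θ σ := by
  obtain ⟨h1, h2⟩ := h
  set x := Θ (0, a) with hx
  have hx0 : 0 < x 0 := by
    rcases h1 0 with h | h
    · exact h
    · have := h.2
      rw [bx_zero] at this
      linarith
  have hnn : ∀ l : Fin N, 0 ≤ x (wco l) := by
    intro l
    rcases h1 (wco l) with h | h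
    · exact h.le
    · exact h.1.symm.le
  obtain ⟨σ, ⟨hσ, y, hy, hw⟩, -⟩ := R.partition (fun l => x (wco l)) hnn
  have hw' : ∀ l : Fin N, x (wco l) = ∑ ρ ∈ σ, y ρ * (ρ l : ℝ) := hw
  choose j1 hj1 using hPr σ hσ
  have hord : ∀ k, ∀ ρ ∈ σ, ordG g v k ρ = ∑ l, ρ l * v (j1 k) l := fun k ρ hρ =>
    ordG_eq g v k ρ (j1 k) (hj1 k).1 ((hj1 k).2 ρ hρ)
  have hf := we_sum (P := P+1) v σ y x hw'
  have hge : ∀ j, ∑ ρ ∈ σ, y ρ * (ordG g v (g j) ρ : ℝ) ≤ we v x j := by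
    intro j
    rw [hf j]
    refine Finset.sum_le_sum fun ρ hρ => mul_le_mul_of_nonneg_left ?_ (hy ρ hρ).le
    exact_mod_cast ordG_le g v ρ j
  have heq : ∀ j, j ∈ minSetG g v σ ↔ we v x j = ∑ ρ ∈ σ, y ρ * (ordG g v (g j) ρ : ℝ) := by
    intro j
    rw [hf j, mem_minSetG]
    constructor
    · intro h
      exact Finset.sum_congr rfl fun ρ hρ => by rw [h ρ hρ]
    · intro h ρ hρ
      have h3 : ∑ ρ ∈ σ, y ρ * (((∑ l, ρ l * v j l : ℕ) : ℝ) - (ordG g v (g j) ρ : ℝ)) = 0 := by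
        simp only [mul_sub, Finset.sum_sub_distrib]
        rw [h, sub_self]
      have h4 := (Finset.sum_eq_zero_iff_of_nonneg (fun ρ hρ => mul_nonneg (hy ρ hρ).le
        (sub_nonneg.2 (by exact_mod_cast ordG_le g v ρ j)))).1 h3 ρ hρ
      rcases mul_eq_zero.1 h4 with h5 | h5
      · exact absurd h5 (hy ρ hρ).ne'
      · have h6 := sub_eq_zero.1 h5
        exact_mod_cast h6
  have hyJ : ∀ j ∈ J, yA (Ax g v m) x j = 0 := by
    intro j hj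
    have h3 := hA.y 0 a ⟨j, hj⟩
    simpa using h3
  have hy0 := hyJ 0 h0J
  have hcl0 : ∀ j : Fin r, j.succ ∈ clA (Ax g v m) J → we v x j = x (tc (g j)) := by
    intro j hj
    obtain ⟨c, hc⟩ := (mem_clA _ _ _).1 hj
    have h3 := combA_zero _ hc x hyJ
    rw [yA_s g v m hm, hy0] at h3
    linarith
  have hcl1 : ∀ j : Fin r, j.succ ∉ clA (Ax g v m) J → x (tc (g j)) < we v x j := by
    intro j hj
    have h3 := h2 j.succ (fun c hc => hj ((mem_clA _ _ _).2 ⟨c, hc⟩))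
    rw [yA_s g v m hm, hy0] at h3
    linarith
  have hm1 : ∀ k, j1 k ∈ minSetG g v σ := by
    intro k
    rw [mem_minSetG, (hj1 k).1]
    exact fun ρ hρ => (hord k ρ hρ).symm
  have hT : ∀ k, x (tc k) = ∑ ρ ∈ σ, y ρ * (ordG g v k ρ : ℝ) := by
    intro k
    refine le_antisymm ?_ ?_
    · have h3 := (heq (j1 k)).1 (hm1 k)
      rw [(hj1 k).1] at h3
      rw [← h3]
      by_cases hj : (j1 k).succ ∈ clA (Ax g v m) J
      · have h4 := hcl0 _ hj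
        rw [(hj1 k).1] at h4
        exact h4.symm.le
      · have h4 := hcl1 _ hj
        rw [(hj1 k).1] at h4
        exact h4.le
    · obtain ⟨j2, hj2, hj2k⟩ := hJ k
      have h3 := hcl0 j2 (sub_clA _ J hj2)
      rw [hj2k] at h3
      rw [← h3]
      have h4 := hge j2
      rw [hj2k] at h4
      exact h4
  have hx0s : x 0 = ∑ ρ ∈ σ, y ρ * ∑ k, (m k : ℝ) * (ordG g v k ρ : ℝ) := by
    rw [yA_0] at hy0
    have h3 : x 0 = ∑ k, (m k : ℝ) * x (tc k) := by linarith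
    rw [h3]
    simp only [hT, Finset.mul_sum]
    rw [Finset.sum_comm]
    exact Finset.sum_congr rfl fun ρ _ => Finset.sum_congr rfl fun k _ => by ring
  refine ⟨σ, hσ, ⟨?_, ?_, ?_⟩, (rgX_iff g v m Θ σ a).2 ⟨fun ρ => y ρ, fun ρ => hy ρ ρ.2, ?_⟩⟩
  · ext l
    rcases Fin.eq_zero_or_eq_succ l with h0 | ⟨j, hj⟩
    · subst h0
      exact iff_of_true (zero_mem_Jh _) (sub_clA _ J h0J)
    · subst hj
      unfold mH
      rw [succ_mem_Jh, heq j, ← hT]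
      constructor
      · intro h
        by_contra hj
        exact absurd h (hcl1 j hj).ne'
      · exact hcl0 j
  · by_contra hcon
    unfold NZ at hcon
    push Not at hcon
    rw [hx0s] at hx0
    have h3 : ∑ ρ ∈ σ, y ρ * ∑ k, (m k : ℝ) * (ordG g v k ρ : ℝ) = 0 := by
      refine Finset.sum_eq_zero fun ρ hρ => ?_
      rw [Finset.sum_eq_zero, mul_zero]
      intro k _
      rw [hcon ρ hρ k]
      simp
    rw [h3] at hx0
    exact lt_irrefl 0 hx0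
  · rcases lt_or_gt_of_ne hαx with h5 | h5
    · right
      intro l
      have h6 : 0 < x (wco l) := by
        rcases h1 (wco l) with h | h
        · exact h
        · have h7 := h.2
          rw [bx_wc] at h7
          exact absurd h7 (not_lt.2 h5.le)
      by_contra hcon
      push Not at hcon
      rw [hw' l, Finset.sum_eq_zero] at h6
      · exact lt_irrefl 0 h6
      · intro ρ hρ
        rw [hcon ρ hρ]
        simp
    · left
      exact h5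
  · rw [Finset.sum_coe_sort σ (fun ρ => y ρ • rhoXR g v m ρ)]
    funext i
    rw [Finset.sum_apply]
    refine coords_cases (p := fun i => x i = ∑ ρ ∈ σ, (y ρ • rhoXR g v m ρ) i) ?_ ?_ ?_ i
    · rw [hx0s]
      refine Finset.sum_congr rfl fun ρ _ => ?_
      rw [Pi.smul_apply, smul_eq_mul]
      unfold rhoXR
      rw [rhoX_zero]
      push_cast
      rfl
    · intro k
      rw [hT k]
      refine Finset.sum_congr rfl fun ρ _ => ?_
      rw [Pi.smul_apply, smul_eq_mul]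
      unfold rhoXR
      rw [rhoX_tc]
      simp
    · intro l
      rw [hw' l]
      refine Finset.sum_congr rfl fun ρ _ => ?_
      rw [Pi.smul_apply, smul_eq_mul]
      unfold rhoXR
      rw [rhoX_wc]
      simp

open Classical in
lemma limX_eq (hm : ∀ k, 1 ≤ m k) (R : SmoothFan N) (hPr : PrincipalG g v R) (h0J : (0 : Fin (r+1)) ∈ J)
    (hJ : ∀ k, ∃ j, j.succ ∈ J ∧ g j = k) {κ : ℝ} (hA : AdaptA (Ax g v m) J d Θ κ)
    (K α0 αx : ℝ) (hK : 0 < K) (hα : 0 < α0) (hαx : αx ≠ 0)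
    (θ : Fin (r+1) → ℝ) (hAdm : AdmA (Ax g v m) θ J) (lam : Fin (P+1+N+1) → ℝ)
    (a : Fin d → ℝ) : limGA (Ax g v m) θ lam (bx K α0 αx) J (Θ (0, a)) =
      ∑ σ ∈ R.cones.filter (PCX g v m αx J),
        (rgX g v m Θ σ).indicator (fun a => wt lam (Θ (0, a))) a := by
  have h0 : limGA (Ax g v m) θ lam (bx K α0 αx) J (Θ (0, a)) =
      if CondA (Ax g v m) (bx K α0 αx) J (Θ (0, a)) then wt lam (Θ (0, a)) else 0 := by
    unfold limGA
    exact if_congr ⟨fun h => h.1, fun h => ⟨h, hAdm⟩⟩ rfl rfl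
  rw [h0]
  split_ifs with h
  · obtain ⟨σ, hσ, hP, ha⟩ := rgX_of_cond g v m Θ hm R hPr h0J hJ hA K α0 αx hK hαx a h
    rw [Finset.sum_eq_single_of_mem σ (Finset.mem_filter.2 ⟨hσ, hP⟩), Set.indicator_of_mem ha]
    intro σ' hσ' hne
    rw [Set.indicator_of_notMem]
    intro ha'
    exact hne (rgX_disj g v m Θ R σ' σ (Finset.mem_filter.1 hσ').1 hσ a ha' ha)
  · symm
    refine Finset.sum_eq_zero fun σ hσ => ?_
    rw [Set.indicator_of_notMem]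
    intro ha
    exact h (condX_of_rg g v m Θ hm K α0 αx hα σ (Finset.mem_filter.1 hσ).2 a ha)

end cond

/-! ### Integrals over cones -/

lemma lam_rhoX (g : Fin r → Fin (P+1)) (v : Fin r → Fin N → ℕ) (m : Fin (P+1) → ℕ) (η : Fin (P+1) → ℝ) (s : ℝ)
    (ρ : Fin N → ℕ) : ∑ i, lmw s (wh η) i * rhoXR g v m ρ i = kX g v m η s ρ := by
  rw [sum_coords]
  simp only [lmw_0, lmw_tc, lmw_wc]
  unfold rhoXR kX
  simp only [rhoX_zero, rhoX_tc, rhoX_wc]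
  push_cast
  simp only [mul_add, Finset.sum_add_distrib, one_mul, Finset.mul_sum]
  have h : ∑ k, η k * (ordG g v k ρ : ℝ) = ∑ k, (ordG g v k ρ : ℝ) * η k :=
    Finset.sum_congr rfl fun k _ => mul_comm _ _
  have h' : ∑ k, s * ((m k : ℝ) * (ordG g v k ρ : ℝ)) =
      ∑ k, (ordG g v k ρ : ℝ) * ((m k : ℝ) * s) :=
    Finset.sum_congr rfl fun k _ => by ring
  rw [h, h']
  ring

lemma kX_pos (g : Fin r → Fin (P+1)) (v : Fin r → Fin N → ℕ) (m : Fin (P+1) → ℕ) (R : SmoothFan N)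
    (η : Fin (P+1) → ℝ) (hη : ∀ k, 0 < η k) (s : ℝ) (hs : 0 < s)
    (σ : Finset (Fin N → ℕ)) (hσ : σ ∈ R.cones) (ρ : Fin N → ℕ) (hρ : ρ ∈ σ) :
    0 < kX g v m η s ρ := by
  have h1 : 0 < ∑ l, ρ l := rho_pos R σ hσ ρ hρ
  unfold kX
  refine add_pos_of_nonneg_of_pos ?_ (by exact_mod_cast h1)
  exact Finset.sum_nonneg fun k _ => mul_nonneg (Nat.cast_nonneg _)
    (add_nonneg (mul_nonneg (Nat.cast_nonneg _) hs.le) (hη k).le)

lemma wt_coneX (g : Fin r → Fin (P+1)) (v : Fin r → Fin N → ℕ) (m : Fin (P+1) → ℕ) (η : Fin (P+1) → ℝ) (s : ℝ)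
    (σ : Finset (Fin N → ℕ)) (c : σ → ℝ) :
    wt (lmw s (wh η)) (∑ ρ : σ, c ρ • rhoXR g v m (ρ : Fin N → ℕ)) =
      ∏ ρ : σ, ((Real.exp (-kX g v m η s ρ * c ρ) : ℝ) : ℂ) := by
  unfold wt
  rw [← Complex.ofReal_prod, ← Complex.ofReal_prod, ← Real.exp_sum, ← Real.exp_sum]
  congr 2
  simp only [Finset.sum_apply, Pi.smul_apply, smul_eq_mul, Finset.mul_sum]
  rw [Finset.sum_comm]
  refine Finset.sum_congr rfl fun ρ _ => ?_
  rw [← lam_rhoX, neg_mul, Finset.sum_mul, ← Finset.sum_neg_distrib]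
  exact Finset.sum_congr rfl fun i _ => by ring

lemma cone_valX (g : Fin r → Fin (P+1)) (v : Fin r → Fin N → ℕ) (m : Fin (P+1) → ℕ) (R : SmoothFan N)
    (η : Fin (P+1) → ℝ) (hη : ∀ k, 0 < η k) (s : ℝ) (hs : 0 < s)
    (σ : Finset (Fin N → ℕ)) (hσ : σ ∈ R.cones) :
    ∫ c in {c : σ → ℝ | ∀ ρ, 0 < c ρ},
        wt (lmw s (wh η)) (∑ ρ : σ, c ρ • rhoXR g v m (ρ : Fin N → ℕ)) =
      ∏ ρ ∈ σ, ((kX g v m η s ρ : ℝ) : ℂ)⁻¹ := by
  simp only [wt_coneX]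
  have h : {c : σ → ℝ | ∀ ρ, 0 < c ρ} = Set.univ.pi fun _ => Ioi 0 := by
    ext c; simp
  rw [h, volume_pi, Measure.restrict_pi_pi,
    integral_fintype_prod_eq_prod (fun (ρ : σ) t => ((Real.exp (-kX g v m η s ρ * t) : ℝ) : ℂ))]
  rw [← Finset.prod_coe_sort σ]
  refine Finset.prod_congr rfl fun ρ _ => ?_
  rw [exp_int _ (kX_pos g v m R η hη s hs σ hσ ρ ρ.2)]

/-- the limit for `J` -/
noncomputable def limJX (g : Fin r → Fin (P+1)) (v : Fin r → Fin N → ℕ) (m : Fin (P+1) → ℕ) (θ : Fin (r+1) → ℝ)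
    (R : SmoothFan N) (η : Fin (P+1) → ℝ) (αx : ℝ) (J : Finset (Fin (r+1))) (s : ℝ) : ℂ :=
  open Classical in
  ∑ σ ∈ R.cones, if J ⊆ mH g v σ ∧ σ.card + J.card = P + 1 + N + 1 ∧ NZ g v σ ∧ Inc αx σ ∧
      AdmA (Ax g v m) θ J then
    (idxA (Ax g v m) J : ℂ)⁻¹ * ∏ ρ ∈ σ, ((kX g v m η s ρ : ℝ) : ℂ)⁻¹ else 0

theorem valX (g : Fin r → Fin (P+1)) (v : Fin r → Fin N → ℕ) (m : Fin (P+1) → ℕ)
    (hm : ∀ k, 1 ≤ m k) (θ : Fin (r+1) → ℝ)
    (R : SmoothFan N) (hPr : PrincipalG g v R)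
    (η : Fin (P+1) → ℝ) (hη : ∀ k, 0 < η k) (K α0 αx : ℝ) (hK : 0 < K) (hα : 0 < α0)
    (hαx : αx ≠ 0) (s : ℝ) (hs : 0 < s)
    (J : Finset (Fin (r+1))) (hI : IndA (Ax g v m) J) (h0J : (0 : Fin (r+1)) ∈ J)
    (hJ : ∀ k, ∃ j, j.succ ∈ J ∧ g j = k) (d : ℕ)
    (Θ : ((J → ℝ) × (Fin d → ℝ)) ≃ₗ[ℝ] (Fin (P+1+N+1) → ℝ)) (κ : ℝ)
    (hA : AdaptA (Ax g v m) J d Θ κ)
    (hF : ∀ σ ∈ R.cones, J ⊆ mH g v σ → σ.card + J.card = P + 1 + N + 1 →
      ∀ F : (Fin (P+1+N+1) → ℝ) → ℂ,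
        (κ : ℂ) * (idxA (Ax g v m) J : ℂ) * ∫ a in rgX g v m Θ σ, F (Θ (0, a)) =
          ∫ c in {c : σ → ℝ | ∀ ρ, 0 < c ρ}, F (∑ ρ : σ, c ρ • rhoXR g v m (ρ : Fin N → ℕ)))
    (hidx : idxA (Ax g v m) J ≠ 0) :
    (κ : ℂ) * ∫ a, limGA (Ax g v m) θ (lmw s (wh η)) (bx K α0 αx) J (Θ (0, a)) =
      limJX g v m θ R η αx J s := by
  classical
  by_cases hAdm : AdmA (Ax g v m) θ J
  swap
  · have h1 : ∀ a, limGA (Ax g v m) θ (lmw s (wh η)) (bx K α0 αx) J (Θ (0, a)) = 0 := by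
      intro a
      unfold limGA
      rw [if_neg]
      rintro ⟨-, h⟩
      exact hAdm h
    simp only [h1, integral_zero, mul_zero]
    symm
    unfold limJX
    refine Finset.sum_eq_zero fun σ _ => ?_
    rw [if_neg]
    rintro ⟨-, -, -, -, h⟩
    exact hAdm h
  have hdim := hA.dim
  have hidx' : (idxA (Ax g v m) J : ℂ) ≠ 0 := by exact_mod_cast hidx
  have hval : ∀ σ ∈ R.cones, J ⊆ mH g v σ → σ.card + J.card = P + 1 + N + 1 →
      (κ : ℂ) * ∫ a in rgX g v m Θ σ, wt (lmw s (wh η)) (Θ (0, a)) =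
      (idxA (Ax g v m) J : ℂ)⁻¹ * ∏ ρ ∈ σ, ((kX g v m η s ρ : ℝ) : ℂ)⁻¹ := by
    intro σ hσ h1 h2
    have h3 := hF σ hσ h1 h2 (wt (lmw s (wh η)))
    rw [cone_valX g v m R η hη s hs σ hσ] at h3
    rw [← h3]
    field_simp
  have hint : ∀ σ ∈ R.cones.filter (PCX g v m αx J), Integrable
      ((rgX g v m Θ σ).indicator (fun a => wt (lmw s (wh η)) (Θ (0, a)))) := by
    intro σ hσ
    obtain ⟨hσ, hP⟩ := Finset.mem_filter.1 hσ
    rw [integrable_indicator_iff (rgX_meas g v m Θ hm R hA σ hσ hP.sub)]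
    have hle := cardX_le g v m Θ hm R hA σ hσ hP.sub
    rcases hle.lt_or_eq with hlt | heq
    · rw [IntegrableOn, Measure.restrict_eq_zero.2 (rgX_null g v m Θ hm hA σ hP.sub hlt)]
      exact integrable_zero_measure
    · by_contra hcon
      have h3 := hval σ hσ hP.sub (by omega)
      rw [integral_undef hcon, mul_zero] at h3
      have h4 : (idxA (Ax g v m) J : ℂ)⁻¹ * ∏ ρ ∈ σ, ((kX g v m η s ρ : ℝ) : ℂ)⁻¹ ≠ 0 := by
        refine mul_ne_zero (inv_ne_zero hidx') (Finset.prod_ne_zero_iff.2 fun ρ hρ => inv_ne_zero ?_)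
        exact_mod_cast (kX_pos g v m R η hη s hs σ hσ ρ hρ).ne'
      exact h4 h3.symm
  simp only [limX_eq g v m Θ hm R hPr h0J hJ hA K α0 αx hK hα hαx θ hAdm]
  rw [integral_finsetSum _ hint, Finset.mul_sum, Finset.sum_filter]
  unfold limJX
  refine Finset.sum_congr rfl fun σ hσ => ?_
  by_cases hP : PCX g v m αx J σ
  · rw [if_pos hP, integral_indicator (rgX_meas g v m Θ hm R hA σ hσ hP.sub)]
    have hle := cardX_le g v m Θ hm R hA σ hσ hP.sub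
    rcases hle.lt_or_eq with hlt | heq
    · rw [if_neg (fun h => by have := h.2.1; omega),
        Measure.restrict_eq_zero.2 (rgX_null g v m Θ hm hA σ hP.sub hlt), integral_zero_measure, mul_zero]
    · rw [if_pos ⟨hP.sub, by omega, hP.2.1, hP.2.2, hAdm⟩]
      exact hval σ hσ hP.sub (by omega)
  · rw [if_neg hP, if_neg]
    rintro ⟨h1, h2, h3, h4, -⟩
    exact hP ⟨Finset.Subset.antisymm (mX_sub_cl g v m hm R J hI σ hσ h1 h2)
      (clX_sub g v m hm J σ h1), h3, h4⟩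

/-! ### the frame -/

lemma exists_frameX (g : Fin r → Fin (P+1)) (v : Fin r → Fin N → ℕ) (m : Fin (P+1) → ℕ) (R : SmoothFan N)
    (J : Finset (Fin (r+1))) (σ : Finset (Fin N → ℕ)) (hσ : σ ∈ R.cones)
    (hcard : σ.card + J.card = P + 1 + N + 1) :
    ∃ (Bm : Matrix (Fin (P+1+N+1)) (Fin (P+1+N+1)) ℤ) (ε : J ⊕ σ ≃ Fin (P+1+N+1)),
      IsUnit Bm.det ∧ ∀ ρ : σ, Bm (ε (Sum.inr ρ)) = rhoX g v m ρ := by
  classical
  obtain ⟨B, hB, hrow⟩ := R.smooth σ hσ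
  choose i hi using fun ρ : σ => hrow ρ ρ.2
  have hinj : Function.Injective i := by
    intro ρ ρ' h
    apply Subtype.ext
    funext l
    have h1 := hi ρ l
    have h2 := hi ρ' l
    rw [h, h2] at h1
    exact_mod_cast h1.symm
  set q0 : Fin N → ℤ := Function.extend i
    (fun ρ : σ => ∑ k, (m k : ℤ) * (ordG g v k ρ : ℤ)) 0 with hq0
  set q : Fin N → Fin (P+1) → ℤ := Function.extend i
    (fun ρ : σ => fun k : Fin (P+1) => (ordG g v k ρ : ℤ)) 0 with hq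
  set f : σ → Fin (P+1+N+1) := fun ρ => wco (i ρ) with hf
  have hfinj : Function.Injective f := fun a b h => hinj (wco_inj h)
  have hc : Fintype.card J = Fintype.card ((Set.range f)ᶜ : Set (Fin (P+1+N+1))) := by
    rw [Fintype.card_compl_set, Fintype.card_fin, Set.card_range_of_injective hfinj,
      Fintype.card_coe, Fintype.card_coe]
    omega
  let eJ : J ≃ ((Set.range f)ᶜ : Set (Fin (P+1+N+1))) := Fintype.equivOfCardEq hc
  let ε : J ⊕ σ ≃ Fin (P+1+N+1) := (Equiv.sumComm _ _).trans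
    ((Equiv.sumCongr (Equiv.ofInjective f hfinj) eJ).trans (Equiv.Set.sumCompl _))
  refine ⟨BG B q0 q, ε, BG_unit B hB q0 q, fun ρ => ?_⟩
  have h1 : ε (Sum.inr ρ) = wco (i ρ) := rfl
  rw [h1, BG_wc, rhoX]
  have e1 : q0 (i ρ) = ∑ k, (m k : ℤ) * (ordG g v k ρ : ℤ) := by rw [hq0, hinj.extend_apply]
  have e2 : q (i ρ) = fun k : Fin (P+1) => (ordG g v k ρ : ℤ) := by
    rw [hq, hinj.extend_apply]
  have e3 : B (i ρ) = fun l => ((ρ : Fin N → ℕ) l : ℤ) := funext fun l => hi ρ l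
  rw [e1, e2, e3]

lemma mulVec_rhoX (g : Fin r → Fin (P+1)) (v : Fin r → Fin N → ℕ) (m : Fin (P+1) → ℕ)
    (hm : ∀ k, 1 ≤ m k) (J : Finset (Fin (r+1)))
    (σ : Finset (Fin N → ℕ)) (hJ : J ⊆ mH g v σ) (ρ : σ) :
    (AJ (Ax g v m) J).mulVec (rhoX g v m ρ) = 0 := by
  funext j
  have h1 := (mem_mX g v m hm σ j).1 (hJ j.2) ρ ρ.2
  unfold yA rhoXR at h1
  have h2 : (((AJ (Ax g v m) J).mulVec (rhoX g v m ρ) j : ℤ) : ℝ) = 0 := by
    rw [← h1]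
    simp only [Matrix.mulVec, dotProduct, AJ]
    push_cast
    rfl
  exact_mod_cast h2

/-- the convergence -/
lemma conv_X (g : Fin r → Fin (P+1)) (v : Fin r → Fin N → ℕ) (m : Fin (P+1) → ℕ)
    (hm : ∀ k, 1 ≤ m k) (θ : Fin (r+1) → ℝ)
    (hθ : LinearIndependent ℚ θ)
    (R : SmoothFan N) (hPr : PrincipalG g v R)
    (η : Fin (P+1) → ℝ) (hη : ∀ k, 0 < η k) (K α0 αx : ℝ) (hK : 0 < K) (hα : 0 < α0)
    (hαx : αx ≠ 0) (s : ℝ) (hs : 0 < s)
    (J : Finset (Fin (r+1))) (hidx : idxA (Ax g v m) J ≠ 0) (h0J : (0 : Fin (r+1)) ∈ J)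
    (hJ : ∀ k, ∃ j, j.succ ∈ J ∧ g j = k) :
    Tendsto (fun l : ℕ => ∫ x, integA (Ax g v m) θ (lmw s (wh η)) (bx K α0 αx) J l x
        ∂(Measure.pi (ms (∅ : Finset (Fin (P+1+N+1)))))) atTop (𝓝 (limJX g v m θ R η αx J s)) := by
  have hI := indA_of_idx (Ax g v m) J hidx
  obtain ⟨d, Θ, κ, hA, hF⟩ := c1 (Ax g v m) J hI
  rw [← valX g v m hm θ R hPr η hη K α0 αx hK hα hαx s hs J hI h0J hJ d Θ κ hA ?_ hidx]
  · refine limA (Ax g v m) θ hθ (lmw s (wh η)) ?_ (bx K α0 αx) ?_ J d Θ κ hA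
    · intro i
      refine coords_cases (p := fun i => 0 < lmw (N := P+1+N) s (wh η) i) ?_ ?_ ?_ i
      · rw [lmw_0]; exact hs
      · intro k
        rw [lmw_tc]; exact hη k
      · intro i
        rw [lmw_wc]; exact one_pos
    · intro i
      refine coords_cases (p := fun i => bx (N := N) (P := P) K α0 αx i ≠ 0) ?_ ?_ ?_ i
      · rw [bx_zero]; linarith
      · intro k
        rw [bx_tc]; exact hα.ne'
      · intro i
        rw [bx_wc]; exact hαx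
  · intro σ hσ hJσ hcard F
    obtain ⟨Bm, ε, hB, hε⟩ := exists_frameX g v m R J σ hσ hcard
    exact hF σ (fun ρ => rhoX g v m ρ) Bm ε hB hε (fun ρ => mulVec_rhoX g v m hm J σ hJσ ρ) F

theorem limX_of (h : TaskIdxX) : TaskLimX := by
  classical
  intro r N P g v θ θ0 hθ _ R hPr m hm η hη J hidx hJ K hK α0 hα αx hαx s hs
  obtain ⟨hi, hadm⟩ := h g v m hm J
  have h1 := conv_X g v m hm (Fin.cons θ0 θ) hθ R hPr η hη K α0 αx hK hα hαx s hs (Jh J)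
    (by rw [hi]; exact hidx) (zero_mem_Jh J) (fun k => by
      obtain ⟨j, hj, hjk⟩ := hJ k
      exact ⟨j, (succ_mem_Jh J j).2 hj, hjk⟩)
  have h2 : limJX g v m (Fin.cons θ0 θ) R η αx (Jh J) s = limX g v θ R m η αx J s := by
    unfold limJX limX
    refine Finset.sum_congr rfl fun σ _ => ?_
    have hsub : Jh J ⊆ mH g v σ ↔ J ⊆ minSetG g v σ := by
      constructor
      · intro h3 j hj
        have h4 := h3 ((succ_mem_Jh J j).2 hj)
        unfold mH at h4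
        exact (succ_mem_Jh _ j).1 h4
      · exact fun h3 => Jh_mono h3
    have hcd : σ.card + (Jh J).card = P + 1 + N + 1 ↔ σ.card + J.card = P + N + 1 := by
      rw [card_Jh]
      omega
    rw [hi]
    refine if_congr ?_ rfl rfl
    rw [hsub, hcd, hadm θ θ0]
    rfl
  rw [← h2]
  exact h1

end Pool.Agent.W310.NX
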